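import Pool.Agent.W396.Il.MainC

set_option autoImplicit false

/-!
# MP_5e7226_co: pairs `(K, o)` with an irreducible group of reflection symmetries

Let `o` be an interior point of a convex body `K` in `ℝ^d`, `d ≥ 3`, such that `K` is symmetric
about the hyperplanes through `o` orthogonal to the vectors of a set `Φ` (finite or infinite) of
nonzero vectors which spans `ℝ^d` and does not split into two nonempty parts orthogonal to each
other. Then the whole assertion of the problem holds for `(K, o)`: at most `2 ^ d` hyperplanes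
separate the faces of `K` from `o`, and if fewer do not suffice, `K` is a cross-body centred at `o`.

The proof. By duality one has to illuminate the boundary of the polar body `C`, which has the same
symmetries, by `2 ^ d` directions, and by `2 ^ d - 1` if it is not a parallelepiped. The bound
`2 ^ d` is the theorem of the file `MP_eba1ef_gt/ReflectionSymmetric`. For the second part the
classification of the simple systems (also of rank three) reduces the problem to the types `A_d`,
`D_d`, `E_6` and `H_3`.

* Type `A_d` is the starting file `SimplexSymmetric`.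
* Type `D_d`, `d ≥ 5`: let `t_+`, `t_-` be the largest multiples of the even and the odd sign
  vectors in `C` and `a` the largest coordinate. If `t_+ = t_- = a` then `C` is a cube. Otherwise one
  sign vector is not needed: the point of `C` with this pattern is illuminated by the direction of a
  neighbouring sign vector, if a different majority game is used.
* Type `D_4`: the same, after a triality which makes the weight of the first kind the smallest.
* Type `E_6`: 54 directions illuminate the boundary of every body with this symmetry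
  (certificates checked by the kernel).
* Type `H_3`: six directions do.
-/

open scoped InnerProductSpace

namespace Pool.Agent.Results.MP_5e7226_co.ReflectionSymmetric

/-- `K` is symmetric about the hyperplane through `o` orthogonal to `α`: the orthogonal reflection
at this hyperplane maps `K` into `K`. -/
def SymmetricAbout {d : ℕ} (K : Set (EuclideanSpace ℝ (Fin d))) (o α : EuclideanSpace ℝ (Fin d)) :
    Prop :=
  ∀ x ∈ K, x - (2 * ⟪α, x - o⟫_ℝ / ⟪α, α⟫_ℝ) • α ∈ K

/-- `Φ` is not the union of two nonempty disjoint sets orthogonal to each other. -/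
def Irreducible {d : ℕ} (Φ : Set (EuclideanSpace ℝ (Fin d))) : Prop :=
  ∀ A ⊆ Φ, A.Nonempty → A ≠ Φ → ∃ α ∈ A, ∃ β ∈ Φ, β ∉ A ∧ ⟪α, β⟫_ℝ ≠ 0

/-- The assertion of the problem, in every dimension `d ≥ 3`, for every pair `(K, o)` such that `K`
is symmetric about the hyperplanes through `o` orthogonal to the vectors of a spanning irreducible
set `Φ` (finite or infinite). -/
theorem result :
    ∀ d : ℕ, 3 ≤ d → ∀ K : Set (EuclideanSpace ℝ (Fin d)), Convex ℝ K → IsCompact K →
      ∀ o ∈ interior K, ∀ Φ : Set (EuclideanSpace ℝ (Fin d)), (∀ α ∈ Φ, α ≠ 0) →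
        Submodule.span ℝ Φ = ⊤ → Irreducible Φ → (∀ α ∈ Φ, SymmetricAbout K o α) →
        (∃ w : Fin (2 ^ d) → EuclideanSpace ℝ (Fin d), ∃ b : Fin (2 ^ d) → ℝ,
          ∀ u x₀ : EuclideanSpace ℝ (Fin d), u ≠ 0 → x₀ ∈ K →
            (∀ y ∈ K, ⟪u, y⟫_ℝ ≤ ⟪u, x₀⟫_ℝ) →
              ∃ i, ⟪w i, o⟫_ℝ < b i ∧
                ∀ x ∈ K, ⟪u, x⟫_ℝ = ⟪u, x₀⟫_ℝ → b i < ⟪w i, x⟫_ℝ) ∧
        ((¬ ∃ w : Fin (2 ^ d - 1) → EuclideanSpace ℝ (Fin d), ∃ b : Fin (2 ^ d - 1) → ℝ,
          ∀ u x₀ : EuclideanSpace ℝ (Fin d), u ≠ 0 → x₀ ∈ K →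
            (∀ y ∈ K, ⟪u, y⟫_ℝ ≤ ⟪u, x₀⟫_ℝ) →
              ∃ i, ⟪w i, o⟫_ℝ < b i ∧
                ∀ x ∈ K, ⟪u, x⟫_ℝ = ⟪u, x₀⟫_ℝ → b i < ⟪w i, x⟫_ℝ) →
          ∃ v : Fin d → EuclideanSpace ℝ (Fin d), ∃ t : Fin d → ℝ,
            LinearIndependent ℝ v ∧ (∀ i, 0 < t i) ∧
              K = convexHull ℝ
                (⋃ i, ({o + v i, o - t i • v i} : Set (EuclideanSpace ℝ (Fin d))))) := by
  intro d hd K hK hKc o ho Φ h0 hspan hirr hΦ
  exact Pool.Agent.W396.Il.main hd hK hKc ho Φ h0 hspan hirr hΦ

end Pool.Agent.Results.MP_5e7226_co.ReflectionSymmetric
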