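import Pool.Agent.W867.Cov3.Polar

set_option autoImplicit false

namespace Pool.Agent.Results.MP_5e7226_co.RotationOrderThree

open scoped InnerProductSpace

/-- three-dimensional Euclidean space -/
abbrev E3 : Type := EuclideanSpace ℝ (Fin 3)

/-- the affine self-map `x ↦ o + M (x - o)` of `ℝ³`, which fixes `o` -/
noncomputable def affAt (M : Matrix (Fin 3) (Fin 3) ℝ) (o x : E3) : E3 :=
  o + WithLp.toLp 2 (M.mulVec (WithLp.ofLp (x - o)))

/-- a face of `K`: the intersection of `K` with a supporting hyperplane (there is a nonzero `u` and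
a point `x₀` of `K` maximising `⟪u, ·⟫` on `K`, and `F` is the set of the points of `K` where that
maximum is attained) -/
def IsFace (K F : Set E3) : Prop :=
  ∃ u x₀ : E3, u ≠ 0 ∧ x₀ ∈ K ∧ (∀ y ∈ K, ⟪u, y⟫_ℝ ≤ ⟪u, x₀⟫_ℝ) ∧
    F = {x ∈ K | ⟪u, x⟫_ℝ = ⟪u, x₀⟫_ℝ}

/-- the hyperplane `{x | ⟪n, x⟫ = c}` separates the set `F` strictly from the point `o` (and the
face `F` lies in the open half-space that `n` points to) -/
def Separates (n : E3) (c : ℝ) (F : Set E3) (o : E3) : Prop :=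
  n ≠ 0 ∧ ⟪n, o⟫_ℝ < c ∧ ∀ x ∈ F, c < ⟪n, x⟫_ℝ

/-- Let `K` be a convex body in `ℝ³` and `o` an interior point of `K` such that `(K, o)` has an
affine symmetry `g x = o + M (x - o)` (so `g K = K` and `g o = o`) which preserves the orientation
and is not an involution, or with `g⁴ ≠ id`. Then at most eight hyperplanes separate all the faces
of `K` strictly from `o`. -/
theorem result (K : Set E3) (hK : Convex ℝ K) (hc : IsCompact K) (o : E3) (ho : o ∈ interior K)
    (M : Matrix (Fin 3) (Fin 3) ℝ) (hg : affAt M o '' K = K)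
    (h : (0 < M.det ∧ M ^ 2 ≠ 1) ∨ M ^ 4 ≠ 1) :
    ∃ H : Finset (E3 × ℝ), H.card ≤ 2 ^ 3 ∧
      ∀ F : Set E3, IsFace K F → ∃ h ∈ H, Separates h.1 h.2 F o := by
  obtain ⟨H, hcard, h0, hH⟩ := Pool.Agent.W867.Cov3.Polar.sep_mat K hc o ho M hg h
  refine ⟨H, by norm_num; exact hcard, ?_⟩
  rintro F ⟨u, x₀, hu, hx₀, hmax, rfl⟩
  obtain ⟨h, hh, h1, h2⟩ := hH u x₀ hu hx₀ hmax
  exact ⟨h, hh, h0 h hh, h1, fun x hx => h2 x hx.1 hx.2⟩

end Pool.Agent.Results.MP_5e7226_co.RotationOrderThree
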